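import Pool.Agent.Q86.ShiftOp

set_option autoImplicit false

open Pool.Agent.Q86.PairPert

universe u

/-- For a Fredholm operator `T` the pair `(T, T)` has a commuting invertible compact perturbation
if and only if `T` has an invertible compact perturbation; this fails for the unilateral shift. -/
theorem Pool.Agent.Results.MP_b56e9d_an.PairPerturbation.result :
    (∀ (H : Type u) [NormedAddCommGroup H] [InnerProductSpace ℂ H] [CompleteSpace H]
      (T : H →L[ℂ] H), IsFredholmOp T → (HasInvertiblePair T ↔ HasInvertiblePerturbation T)) ∧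
    ∃ T : L2 →L[ℂ] L2, IsFredholmOp T ∧ ¬ HasInvertiblePair T :=
  ⟨fun _ _ _ _ _ hT => ⟨fun h => h.perturbation hT, fun h => h.pair⟩,
    ⟨_, isFredholm_shift, shift_no_pair⟩⟩
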